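import Pool.Agent.Run7.h798.Tate.CharZero
import Pool.Agent.Run7.h798.Tate.CharP

/-!
# MP_40dc3c_ag, Q1: the Tate conjecture and bilinear equations over the prime fields

`T K j X` is the cycle class map `CH_j(X) ⊗ ℚ_ℓ → H_{2j}(X̄, ℚ_ℓ(j))^{G_K}`. Over the prime field of
characteristic `p` the object `R j X` is the cycle class map `CH_j(X) ⊗ ℚ_ℓ → H_{2j}(X̄, ℚ_ℓ(j))` with
the Frobenius endomorphism. The structures `CycleTheory` collect the known properties which are used.
-/

set_option autoImplicit false

open CategoryTheory AlgebraicGeometry Pool.Agent.Y116.UV Pool.Agent.Q193.LT Pool.Agent.Q282.UK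
  Pool.Agent.Q282.UZ Run7.h798.UV Run7.h798.Tate

universe w

namespace Pool.Agent.Results.MP_40dc3c_ag.BilinearSystems

/-- **Theorem.** Let `N` be a natural number. The Tate conjecture (Q1) for all finitely generated fields
of characteristic zero, all separated schemes of finite type and all `j` is true if and only if the maps
of index `j ≥ N` are surjective for the affine schemes over `ℚ` given by systems of bilinear equations
`∑_{(i, j) ∈ S_l} x_i y_j = 0` with at most three terms in every equation. It is true for all finitely
generated fields of characteristic `p` if and only if for `j ≥ N` and the systems of this form over the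
prime field the maps are surjective and the eigenvalue `1` of Frobenius is semisimple. -/
theorem result {E : Type} [Field E] (N : ℕ) :
    (∀ D : CharZero.CycleTheory.{w} E, D.All ↔ D.Systems N) ∧
      ∀ (p : ℕ) [Fact p.Prime] (D : CharP.CycleTheory.{w} p E), D.All ↔ D.Systems N :=
  ⟨fun D => CharZero.iff_systems D N, fun _ _ D => CharP.iff_systems D N⟩

end Pool.Agent.Results.MP_40dc3c_ag.BilinearSystems
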