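import Pool.Agent.Run7.h798.UV.TateP

/-!
# MP_40dc3c_ag, Q1 in characteristic `p`: bilinear equations over the prime field

For a field `K` of characteristic `p` and `j ≥ 0` the object `T K j X` is the cycle class map
`CH_j(X) ⊗ ℚ_ℓ → H_{2j}(X̄, ℚ_ℓ(j))^{G_K}`. Over the prime field `R j X` (an object of the category
`RegMod`) is the cycle class map `CH_j(X) ⊗ ℚ_ℓ → H_{2j}(X̄, ℚ_ℓ(j))` together with the Frobenius
endomorphism. The structure `CycleTheory` collects the known properties which are used.
-/

set_option autoImplicit false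

open CategoryTheory AlgebraicGeometry Pool.Agent.Y116.UV Pool.Agent.Q193.LT Pool.Agent.Q282.UK
  Pool.Agent.Q282.UZ Run7.h798.UV

universe w

namespace Pool.Agent.Results.MP_40dc3c_ag.BilinearSystemsCharP

/-- `K` is a finitely generated field. -/
def FinGenField (p : ℕ) [Fact p.Prime] (K : Type) [Field K] [CharP K p] : Prop :=
  letI := ZMod.algebra K p
  (⊤ : IntermediateField (ZMod p) K).FG

/-- **Cycle class maps** `T K j X : CH_j(X) ⊗ E → H_{2j}(X̄, E(j))^{G_K}` over the fields `K` of
characteristic `p`, and `R j X : CH_j(X) ⊗ E → H_{2j}(X̄, E(j))` with the Frobenius endomorphism over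
the prime field, with the following properties (for separated schemes of finite type):

* `fixed`: over the prime field `T` is the map from `R` to the fixed vectors of Frobenius;
* `fin`, `iso`: homology is finite-dimensional; isomorphic schemes have isomorphic `R`;
* `exact`: for a closed subscheme `Z` of `X` and its complement `U` the sequence
  `R j Z → R j X → R j U → 0` is exact, on homology for the generalized eigenspaces of the eigenvalue
  `1` (weights);
* `torus`: for affine `X` the object `R j X` is a direct factor of `R (j+1) (X × 𝔾_m)` (inverse image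
  under the projection and the unit section);
* `support`: every cycle class of dimension `j` comes from a closed subscheme of dimension at most `j`;
* `top`: if the dimension of `X` is at most `j`, then the eigenvalue `1` is semisimple on
  `H_{2j}(X̄, E(j))` (Frobenius permutes the fundamental classes of the components);
* `generic`: if `K` is finitely generated and `X` is a scheme over `K`, let `Y` be a model of `X` over an
  integral scheme with function field `K` of dimension `r` over `𝔽_p`; then the homology
  `H_{2j}(X̄, E(j))^{G_K}` is a subspace of a quotient of the generalized eigenspace of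
  `H_{2(j+r)}(Ȳ, E(j+r))` for the eigenvalue `1`, compatibly with cycle classes. -/
structure CycleTheory (p : ℕ) [Fact p.Prime] (E : Type) [Field E] where
  /-- the cycle class maps -/
  T : ∀ (K : Type) [Field K] [CharP K p], ℕ → Sch K → Arrow (ModuleCat.{w} E)
  /-- the cycle class maps over the prime field, with the Frobenius endomorphism -/
  R : ℕ → Sch (ZMod p) → RegMod.{w} E
  fixed : ∀ X : Sch (ZMod p), FT True X → ∀ j, Nonempty (T (ZMod p) j X ≅ (R j X).fixed)
  fin : ∀ X : Sch (ZMod p), FT True X → ∀ j, FiniteDimensional E (R j X).H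
  iso : ∀ {X Y : Sch (ZMod p)}, FT True X → Nonempty (X ≅ Y) → ∀ j, Nonempty (R j X ≅ R j Y)
  exact : ∀ {Z X U : Sch (ZMod p)} (i : Z ⟶ X) (u : U ⟶ X), FT True X → IsTriple i u →
    ∀ j, ∃ (f : R j Z ⟶ R j X) (g : R j X ⟶ R j U), RightExactReg f g
  torus : ∀ (B : Type) [CommRing B] [Algebra (ZMod p) B] [Algebra.FiniteType (ZMod p) B] (j : ℕ),
    ∃ (s : R j (aff (ZMod p) B) ⟶ R (j + 1) (aff (ZMod p) (LaurentPolynomial B)))
      (r : R (j + 1) (aff (ZMod p) (LaurentPolynomial B)) ⟶ R j (aff (ZMod p) B)), s ≫ r = 𝟙 _
  support : ∀ X : Sch (ZMod p), FT True X → ∀ (j : ℕ) (a : (R j X).M),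
    ∃ (Z U : Sch (ZMod p)) (i : Z ⟶ X) (u : U ⟶ X), IsTriple i u ∧ topologicalKrullDim Z.left ≤ j ∧
      ∃ (f : R j Z ⟶ R j X) (g : R j X ⟶ R j U), RightExactReg f g ∧ ∃ z, f.m.hom z = a
  top : ∀ X : Sch (ZMod p), FT True X → ∀ j : ℕ, topologicalKrullDim X.left ≤ j →
    Module.End.maxGenEigenspace (R j X).F.hom 1 = Module.End.eigenspace (R j X).F.hom (1 : E)
  generic : ∀ (K : Type) [Field K] [CharP K p], FinGenField p K → ∀ X : Sch K, FT True X →
    ∃ (Y : Sch (ZMod p)) (r : ℕ), FT True Y ∧ ∀ j, Dominates (R (j + r) Y) (T K j X)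

variable {p : ℕ} [Fact p.Prime] {E : Type} [Field E]

/-- **The Tate conjecture for `X`**: all cycle class maps
`CH_j(X) ⊗ E → H_{2j}(X̄, E(j))^{G_K}` are surjective. -/
def CycleTheory.Tate (D : CycleTheory.{w} p E) (K : Type) [Field K] [CharP K p] (X : Sch K) : Prop :=
  ∀ j, Function.Surjective (D.T K j X).hom.hom

/-- **The Tate conjecture and semisimplicity for `X` over the prime field**: for all `j` the image of
the cycle class map is the space of fixed vectors of Frobenius on `H_{2j}(X̄, E(j))`, and the eigenvalue
`1` is semisimple. -/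
def CycleTheory.TateSS (D : CycleTheory.{w} p E) (X : Sch (ZMod p)) : Prop :=
  ∀ j, (D.R j X).TateSS

lemma clo (D : CycleTheory.{w} p E) : Clo True D.TateSS where
  iso hX e h j := by
    obtain ⟨e⟩ := D.iso hX e j
    exact ss_retract e.inv e.hom e.inv_hom_id (h j)
  total i u hX ht hZ hU j := by
    obtain ⟨f, g, h⟩ := D.exact i u hX ht j
    have := D.fin _ (ft_closed i hX ht.closed) j
    exact ss_mid h (hZ j) (hU j)
  opened i u hX ht _ hX' j := by
    obtain ⟨f, g, h⟩ := D.exact i u hX ht j
    have := D.fin _ hX j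
    exact ss_right h (hX' j)
  torus B _ _ _ h j := by
    obtain ⟨s, r, hsr⟩ := D.torus B j
    exact ss_retract s r hsr (h (j + 1))

lemma fixed_of_tate (D : CycleTheory.{w} p E) (h : ∀ X : Sch (ZMod p), FT True X → D.Tate (ZMod p) X)
    (X : Sch (ZMod p)) (hX : FT True X) (j : ℕ) : Function.Surjective (D.R j X).fixed.hom.hom := by
  obtain ⟨e⟩ := D.fixed X hX j
  intro y
  obtain ⟨a, ha⟩ := h X hX j (e.inv.right.hom y)
  refine ⟨e.hom.left.hom a, ?_⟩
  have h1 : (D.R j X).fixed.hom.hom (e.hom.left.hom a) =
      e.hom.right.hom ((D.T (ZMod p) j X).hom.hom a) := congrArg (fun f => f.hom a) e.hom.w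
  rw [h1, ha]
  exact congrArg (fun f : (D.R j X).fixed ⟶ (D.R j X).fixed => f.right.hom y) e.inv_hom_id

/-- The Tate conjecture for all schemes over the prime field implies semisimplicity. -/
lemma tateSS_of_tate (D : CycleTheory.{w} p E)
    (h : ∀ X : Sch (ZMod p), FT True X → D.Tate (ZMod p) X) (X : Sch (ZMod p)) (hX : FT True X) :
    D.TateSS X := by
  intro j
  refine ⟨range_of_fixed (fixed_of_tate D h X hX j), (ss_iff _).mpr ?_⟩
  intro x y hx hy
  obtain ⟨a, ha⟩ := (fixed_surj _).mp (fixed_of_tate D h X hX j) y hy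
  obtain ⟨Z, U, i, u, ht, hd, f, g, hfg, z, hz⟩ := D.support X hX j a
  have hZ := ft_closed i hX ht.closed
  have := D.fin _ hZ j
  exact ss_step hfg (fixed_of_tate D h U (ft_open u hX ht.opened) j) (D.top Z hZ j hd) hx hy
    (a := z) (by rw [hz, ha])

/-- **Theorem.** The cycle class maps `CH_j(X) ⊗ ℚ_ℓ → H_{2j}(X̄, ℚ_ℓ(j))^{G_K}` are surjective for all
finitely generated fields `K` of characteristic `p`, all separated schemes `X` of finite type over `K`
and all `j` (Q1 in characteristic `p`) if and only if, for the affine schemes over the prime field given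
by a system of bilinear equations `∑_{(i, j) ∈ E_l} x_i y_j = 0` with at most three terms in every
equation, they are surjective and the eigenvalue `1` of Frobenius is semisimple. -/
theorem result (D : CycleTheory.{w} p E) :
    (∀ (K : Type) [Field K] [CharP K p], FinGenField p K → ∀ X : Sch K, FT True X → D.Tate K X) ↔
      ForThreeTerms D.TateSS := by
  have hR : Function.Surjective (Int.cast : ℤ → ZMod p) := ZMod.intCast_surjective
  rw [← three_iff (short_presents hR) (clo D)]
  constructor
  · intro h
    refine tateSS_of_tate D fun X hX => h (ZMod p) ?_ X hX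
    have h1 : ∀ a : Algebra (ZMod p) (ZMod p),
        (⊤ : @IntermediateField (ZMod p) (ZMod p) _ _ a).FG := by
      intro a
      have h2 : a = Algebra.id (ZMod p) := Subsingleton.elim _ _
      subst h2
      have h2 : (⊤ : IntermediateField (ZMod p) (ZMod p)) = ⊥ := Subsingleton.elim _ _
      rw [h2]
      exact IntermediateField.fg_bot
    exact h1 _
  · intro h K _ _ hK X hX j
    obtain ⟨Y, r, hY, hq⟩ := D.generic K hK X hX
    exact dominates_surj (hq j) (h Y hY (j + r))

end Pool.Agent.Results.MP_40dc3c_ag.BilinearSystemsCharP
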