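import Pool.Agent.Run7.h798.TB.Theory

/-!
# MP_2ce3e7_ag, Q1: the Tate-Beilinson conjecture in bounded dimension and trilinear forms
-/

set_option autoImplicit false

open CategoryTheory AlgebraicGeometry Pool.Agent.Y116.UV Pool.Agent.Q193.LT Pool.Agent.Q282.UZ
  Run7.h798.UV Run7.h798.TB

universe w

namespace Pool.Agent.Results.MP_2ce3e7_ag.BoundedDimension

/-- **Theorem.** For each finite field `k` and each `n`: TB(X) holds for all separated schemes `X` of
finite type over `k` of dimension at most `n` if and only if it holds for the affine cubic hypersurfaces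
`T(x, y, z) = 1` over `k`, for all trilinear forms `T` in three blocks of variables one of which has at
most `n + 2` variables. For `n = 1` both are true: TB holds for the hypersurfaces `T(x, y, z) = 1` if one
of the blocks has at most three variables (their dimension is not bounded). -/
theorem result {p : ℕ} [Fact p.Prime] {E : Type} [Field E] (D : Theory.{w} p E) (k : Type) [Field k]
    [Finite k] [CharP k p] : (∀ n : ℕ, D.Dim k n ↔ D.Block k (n + 2)) ∧ D.Block k 3 := by
  have key : ∀ n : ℕ, D.Dim k n ↔ D.Block k (n + 2) := fun n => dim_iff (bnd D k) n
  exact ⟨key, (key 1).mp fun X hX hn => D.curves k X hX (by exact_mod_cast hn)⟩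

end Pool.Agent.Results.MP_2ce3e7_ag.BoundedDimension
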