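import Pool.Agent.Run7.h798.Tate.CubicZero
import Pool.Agent.Run7.h798.Tate.CubicP

/-!
# MP_40dc3c_ag, Q1: the Tate conjecture and singular cubic hypersurfaces over the prime fields

`T K j X` is the cycle class map `CH_j(X) ⊗ ℚ_ℓ → H_{2j}(X̄, ℚ_ℓ(j))^{G_K}`. Over the prime field of
characteristic `p` the object `R j X` is the cycle class map `CH_j(X) ⊗ ℚ_ℓ → H_{2j}(X̄, ℚ_ℓ(j))` with
the Frobenius endomorphism. The structures `CycleTheory` and `Geometric` collect the known properties
which are used. `projHyp k F` is the (reduced) hypersurface `F = 0` in the projective space over `k`.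
-/

set_option autoImplicit false

open CategoryTheory AlgebraicGeometry Pool.Agent.Y116.UV Pool.Agent.Q193.LT Pool.Agent.Q282.UK
  Pool.Agent.Q282.UZ Run7.h798.UV Run7.h798.Tate

universe w

namespace Pool.Agent.Results.MP_40dc3c_ag.CubicHypersurfaces

/-- **Theorem.** Let `N` be a natural number.

(a) The Tate conjecture (Q1) for all finitely generated fields of characteristic zero, all separated
schemes of finite type and all `j` is true if and only if it is true in the dimensions `j ≥ N` for the
(singular) cubic hypersurfaces in the projective spaces over `ℚ`; it is enough to know it for the cubic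
forms `∑_l z_l f_l(x, y)`, where every `f_l` is a sum of at most three monomials `x_i y_j`. It is also
enough to know it for the affine schemes over `ℚ` given by the systems of equations `f_l(x, y) = 0`.

(b) Q1 is true for all finitely generated fields of characteristic `p` if and only if in the dimensions
`j ≥ N` and for these cubic hypersurfaces (or systems) over the prime field the cycle class maps are
surjective onto the fixed vectors and the eigenvalue `1` of Frobenius is semisimple. -/
theorem result {E : Type} [Field E] (N : ℕ) :
    (∀ D : CharZero.CycleTheory.{w} E, (D.All ↔ D.Systems N) ∧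
      (D.Geometric → (D.All ↔ D.Cubics N) ∧ (D.All ↔ D.Trilinear N))) ∧
    ∀ (p : ℕ) [Fact p.Prime] (D : CharP.CycleTheory.{w} p E), (D.All ↔ D.Systems N) ∧
      (D.Geometric → (D.All ↔ D.Cubics N) ∧ (D.All ↔ D.Trilinear N)) :=
  ⟨fun D => ⟨CharZero.iff_systems D N, fun h => CharZero.iff_cubics D h N⟩,
    fun _ _ D => ⟨CharP.iff_systems D N, fun h => CharP.iff_cubics D h N⟩⟩

end Pool.Agent.Results.MP_40dc3c_ag.CubicHypersurfaces
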